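import Pool.Agent.Q213.PM.Main

/-!
# Partial model categories realize all homotopy types

Q1 asks whether every small category is equivalent, in the Thomason model structure, to the category
of weak equivalences of a partial model category.  The answer is yes, and one can even take a partial
model category in which all maps are weak equivalences.

Idea of the proof.  First `D` is replaced by a category `A` with an interval presheaf such that the
products of the representable presheaves with the interval are representable.  The presheaves on `A`
with contractible category of elements (aspherical presheaves) have a functorial factorization by
mapping cylinders: the first map is a monomorphism, and pushouts of monomorphisms between aspherical
presheaves along maps between aspherical presheaves are aspherical (gluing lemma); the second map is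
shrinkable, and pullbacks of shrinkable maps are shrinkable.  A small full subcategory which contains
the representable presheaves and is closed under the factorization and these pushouts and pullbacks
is a partial model category in which all maps are weak equivalences.  By Quillen's Theorem A (for
simplicial sets: a map whose base changes to all simplices are contractible is a weak equivalence)
the inclusion of `A` is a weak equivalence.
-/

set_option autoImplicit false

universe u

open CategoryTheory

namespace Pool.Agent.Results.MP_64c6ca_gt.EveryHomotopyType

open Pool.Agent.Q213.PM

/-- For every small category `D` there are a small category `M` with a structure `S` of a partial
model category, and a functor `G` from `D` to the category `S.W` of weak equivalences of `M` whose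
nerve is a weak homotopy equivalence. Moreover, all maps of `M` are weak equivalences. -/
theorem result (D : Type u) [SmallCategory D] :
    ∃ (M : Type u) (_ : SmallCategory M) (S : PartialModel M) (G : D ⥤ WideSubcategory S.W),
      WeakEq (nerveMap G) ∧ S.W = ⊤ :=
  main D

end Pool.Agent.Results.MP_64c6ca_gt.EveryHomotopyType
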